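import Mathlib

/-!
MP_deb9f2_nt.  The prime-parity ladder: values on a segment between consecutive primes, runs of increasing gaps.
-/

set_option autoImplicit false

namespace Pool.Agent.H64.LD

open Finset

/-- the ladder -/
def y (n : ℕ) : ℤ := ∑ i ∈ Finset.Icc 1 (n - 1), (-1) ^ Nat.primeCounting i

/-- the primes `P 0 = 2, P 1 = 3, ...` -/
noncomputable def P (k : ℕ) : ℕ := Nat.nth Nat.Prime k

theorem y_succ {n : ℕ} (hn : 1 ≤ n) : y (n + 1) = y n + (-1) ^ Nat.primeCounting n := by
  unfold y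
  have h1 : n + 1 - 1 = (n - 1) + 1 := by omega
  rw [h1, Finset.sum_Icc_succ_top (by omega)]
  have h2 : n - 1 + 1 = n := by omega
  rw [h2]

theorem P_lt (k : ℕ) : P k < P (k + 1) :=
  Nat.nth_strictMono Nat.infinite_setOfPred_prime (Nat.lt_succ_self k)

theorem P_mono {a b : ℕ} (h : a ≤ b) : P a ≤ P b :=
  (Nat.nth_strictMono Nat.infinite_setOfPred_prime).monotone h

theorem P_pos (k : ℕ) : 2 ≤ P k := (Nat.prime_nth_prime k).two_le

theorem pc_seg {k n : ℕ} (h1 : P k ≤ n) (h2 : n < P (k + 1)) : Nat.primeCounting n = k + 1 := by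
  have e1 : Nat.primeCounting n = Nat.count Nat.Prime (n + 1) := rfl
  have e2 : Nat.count Nat.Prime (P k + 1) = k + 1 := by
    rw [Nat.count_succ, if_pos (show Nat.Prime (P k) from Nat.prime_nth_prime k)]
    congr 1
    exact Nat.count_nth_of_infinite Nat.infinite_setOfPred_prime k
  have e3 : Nat.count Nat.Prime (P (k + 1)) = k + 1 :=
    Nat.count_nth_of_infinite Nat.infinite_setOfPred_prime (k + 1)
  have h3 : Nat.count Nat.Prime (P k + 1) ≤ Nat.count Nat.Prime (n + 1) :=
    Nat.count_monotone _ (by omega)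
  have h4 : Nat.count Nat.Prime (n + 1) ≤ Nat.count Nat.Prime (P (k + 1)) :=
    Nat.count_monotone _ (by omega)
  omega

/-- the sign of the `k`-th segment -/
def sg (k : ℕ) : ℤ := (-1) ^ (k + 1)

theorem sg_succ (k : ℕ) : sg (k + 1) = - sg k := by
  unfold sg
  rw [pow_succ (-1 : ℤ) (k + 1)]
  ring

theorem sg_sq (k : ℕ) : sg k * sg k = 1 := by
  unfold sg
  rw [← pow_add, ← two_mul, pow_mul]
  simp

theorem sg_abs (k : ℕ) : |sg k| = 1 := by
  unfold sg
  rw [abs_pow]
  simp

theorem y_seg {k a : ℕ} (h1 : P k ≤ a) (h2 : a ≤ P (k + 1)) :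
    y a = y (P k) + sg k * ((a : ℤ) - P k) := by
  induction a, h1 using Nat.le_induction with
  | base => simp
  | succ n hn ih =>
    have h3 := P_pos k
    rw [y_succ (by omega), ih (by omega), pc_seg hn (by omega)]
    unfold sg
    push_cast
    ring

/-- the offset of the level `s` in the segment `k` -/
noncomputable def off (k : ℕ) (s : ℤ) : ℤ := sg k * (s - y (P k))

theorem off_succ (k : ℕ) (s : ℤ) : off (k + 1) s = ((P (k + 1) : ℤ) - P k) - off k s := by
  unfold off
  have h := y_seg (k := k) (a := P (k + 1)) (P_lt k).le le_rfl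
  rw [h, sg_succ]
  linear_combination (((P (k + 1) : ℤ) - P k)) * sg_sq k

theorem hit {k : ℕ} {s : ℤ} (h0 : 0 ≤ off k s) (h1 : off k s < (P (k + 1) : ℤ) - P k) :
    ∃ x : ℕ, P k ≤ x ∧ x < P (k + 1) ∧ y x = s := by
  obtain ⟨t, ht⟩ := Int.eq_ofNat_of_zero_le h0
  refine ⟨P k + t, by omega, by omega, ?_⟩
  rw [y_seg (k := k) (by omega) (by omega)]
  push_cast
  have h2 : sg k * ((P k : ℤ) + t - P k) = sg k * off k s := by
    rw [ht]; ring
  rw [h2]
  unfold off
  linear_combination (s - y (P k)) * sg_sq k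

/-- in a run of increasing gaps the offsets stay inside the segments -/
theorem off_run {i m : ℕ} {s : ℤ} (hm : ∀ j, j + 1 < m →
      (P (i + j + 1) : ℤ) - P (i + j) < (P (i + j + 1 + 1) : ℤ) - P (i + j + 1))
    (h0 : 0 ≤ off i s) (h1 : off i s < (P (i + 1) : ℤ) - P i) :
    ∀ j, j < m → 0 ≤ off (i + j) s ∧ off (i + j) s < (P (i + j + 1) : ℤ) - P (i + j) := by
  intro j
  induction j with
  | zero => intro _; exact ⟨h0, h1⟩
  | succ j ih =>
    intro hj
    obtain ⟨h2, h3⟩ := ih (by omega)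
    have h4 := off_succ (i + j) s
    have h5 := hm j hj
    have h6 : i + (j + 1) = i + j + 1 := by ring
    rw [h6]
    constructor
    · omega
    · omega

/-- every level met by the first segment of a run of `m` increasing gaps is attained at least `m` times -/
theorem visits {i m : ℕ} {s : ℤ} (hm : ∀ j, j + 1 < m →
      (P (i + j + 1) : ℤ) - P (i + j) < (P (i + j + 1 + 1) : ℤ) - P (i + j + 1))
    (h0 : 0 ≤ off i s) (h1 : off i s < (P (i + 1) : ℤ) - P i) :
    m ≤ Set.ncard {x : ℕ | P i ≤ x ∧ x < P (i + m) ∧ y x = s} := by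
  have h := off_run hm h0 h1
  have h2 : ∀ j, ∃ x : ℕ, j < m → P (i + j) ≤ x ∧ x < P (i + j + 1) ∧ y x = s := by
    intro j
    by_cases hj : j < m
    · obtain ⟨x, hx⟩ := hit (h j hj).1 (h j hj).2
      exact ⟨x, fun _ => hx⟩
    · exact ⟨0, fun h => absurd h hj⟩
  choose f hf using h2
  have hinj : Set.InjOn f (Finset.range m : Set ℕ) := by
    intro a ha b hb hab
    have ha' := hf a (Finset.mem_range.1 (Finset.mem_coe.1 ha))
    have hb' := hf b (Finset.mem_range.1 (Finset.mem_coe.1 hb))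
    by_contra hne
    rcases Nat.lt_or_gt_of_ne hne with hlt | hlt
    · have h3 : P (i + a + 1) ≤ P (i + b) := P_mono (by omega)
      omega
    · have h3 : P (i + b + 1) ≤ P (i + a) := P_mono (by omega)
      omega
  have hfin : Set.Finite {x : ℕ | P i ≤ x ∧ x < P (i + m) ∧ y x = s} :=
    (Set.finite_lt_nat (P (i + m))).subset fun x hx => hx.2.1
  have hsub : ((Finset.range m).image f : Set ℕ) ⊆ {x : ℕ | P i ≤ x ∧ x < P (i + m) ∧ y x = s} := by
    intro x hx
    rw [Finset.mem_coe, Finset.mem_image] at hx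
    obtain ⟨j, hj, rfl⟩ := hx
    rw [Finset.mem_range] at hj
    obtain ⟨h3, h4, h5⟩ := hf j hj
    refine ⟨(P_mono (by omega)).trans h3, lt_of_lt_of_le h4 (P_mono (by omega)), h5⟩
  have h3 := Set.ncard_le_ncard hsub hfin
  rw [Set.ncard_coe_finset, Finset.card_image_of_injOn hinj, Finset.card_range] at h3
  exact h3

end Pool.Agent.H64.LD
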