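import Pool.Agent.H64.LD.Base

/-!
MP_deb9f2_nt.  Counting the points in the first segments of runs of increasing gaps.
-/

set_option autoImplicit false

namespace Pool.Agent.H64.LD

open Finset

/-- the points `x ≤ X` with `π(x)` of parity `e` such that all levels within `w` of `y x` are attained at least `m` times at
distance at most `D` from `x` -/
def T (m : ℕ) (w D X : ℝ) (e : ℕ) : Set ℕ :=
  {x : ℕ | 1 ≤ x ∧ (x : ℝ) ≤ X ∧ Nat.primeCounting x % 2 = e ∧ ∀ s : ℤ, |(s : ℝ) - y x| ≤ w →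
    m ≤ Set.ncard {x' : ℕ | 1 ≤ x' ∧ |(x' : ℝ) - x| ≤ D ∧ y x' = s}}

/-- a run of `m` increasing gaps at `j`, in a window of length `D`, the first gap being longer than `4 w` -/
def Run (m : ℕ) (w D X : ℝ) (j : ℕ) : Prop :=
  4 * w < (P (j + 1) : ℝ) - P j ∧
  (∀ t, t + 1 < m → (P (j + t + 1) : ℤ) - P (j + t) < (P (j + t + 1 + 1) : ℤ) - P (j + t + 1)) ∧
  (P (j + m) : ℝ) - P j ≤ D ∧ (P (j + 1) : ℝ) ≤ X

theorem mem_T {m j x : ℕ} {w D X : ℝ} (hm : 1 ≤ m) (hw : 0 ≤ w) (hR : Run m w D X j)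
    (h1 : (P j : ℝ) + w ≤ x) (h2 : (x : ℝ) < P (j + 1) - w) : x ∈ T m w D X ((j + 1) % 2) := by
  obtain ⟨hg, hrun, hwin, hX⟩ := hR
  have a1 : (P j : ℝ) ≤ x := by linarith
  have a2 : (x : ℝ) < P (j + 1) := by linarith
  have b1 : P j ≤ x := by exact_mod_cast a1
  have b2 : x < P (j + 1) := by exact_mod_cast a2
  have b3 := P_pos j
  refine ⟨by omega, by linarith, by rw [pc_seg b1 b2], ?_⟩
  intro s hs
  have hy : y x = y (P j) + sg j * ((x : ℤ) - P j) := y_seg b1 b2.le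
  have hoff : off j s = ((x : ℤ) - P j) + sg j * (s - y x) := by
    unfold off
    rw [hy]
    linear_combination (((x : ℤ) - P j)) * sg_sq j
  have hoffR : (off j s : ℝ) = ((x : ℝ) - P j) + (sg j : ℝ) * ((s : ℝ) - y x) := by
    rw [hoff]; push_cast; ring
  have habs : |(sg j : ℝ) * ((s : ℝ) - y x)| ≤ w := by
    rw [abs_mul]
    have : |(sg j : ℝ)| = 1 := by
      have h := sg_abs j
      have h' : ((|sg j| : ℤ) : ℝ) = 1 := by rw [h]; simp
      rwa [Int.cast_abs] at h'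
    rw [this, one_mul]
    exact hs
  obtain ⟨c1, c2⟩ := abs_le.1 habs
  have d1 : (0 : ℝ) ≤ (off j s : ℝ) := by rw [hoffR]; linarith
  have d2 : (off j s : ℝ) < (P (j + 1) : ℝ) - P j := by rw [hoffR]; linarith
  have e1 : 0 ≤ off j s := by exact_mod_cast d1
  have e2 : off j s < (P (j + 1) : ℤ) - P j := by exact_mod_cast d2
  have hv := visits hrun e1 e2
  refine hv.trans ?_
  have hfin : Set.Finite {x' : ℕ | 1 ≤ x' ∧ |(x' : ℝ) - x| ≤ D ∧ y x' = s} := by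
    refine (Set.finite_le_nat ⌊(x : ℝ) + D⌋₊).subset ?_
    intro x' hx'
    apply Nat.le_floor
    have := (abs_le.1 hx'.2.1).2
    linarith
  refine Set.ncard_le_ncard ?_ hfin
  intro x' hx'
  obtain ⟨f1, f2, f3⟩ := hx'
  have g1 : P (j + 1) ≤ P (j + m) := P_mono (by omega)
  refine ⟨by omega, ?_, f3⟩
  have k1 : (P j : ℝ) ≤ x' := by exact_mod_cast f1
  have k2 : (x' : ℝ) < P (j + m) := by exact_mod_cast f2
  have k3 : (P (j + 1) : ℝ) ≤ P (j + m) := by exact_mod_cast g1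
  rw [abs_le]
  constructor <;> linarith

theorem T_finite (m : ℕ) (w D X : ℝ) (e : ℕ) : (T m w D X e).Finite := by
  refine (Set.finite_le_nat ⌊X⌋₊).subset ?_
  intro x hx
  exact Nat.le_floor hx.2.1

theorem card_seg {a b w : ℝ} (ha : 0 ≤ a) (hw : 1 ≤ w) (hg : 4 * w < b - a) :
    w ≤ ((Finset.Ico ⌈a + w⌉₊ ⌈b - w⌉₊).card : ℝ) := by
  rw [Nat.card_Ico]
  have h1 : (⌈a + w⌉₊ : ℝ) < a + w + 1 := Nat.ceil_lt_add_one (by linarith)
  have h2 : b - w ≤ (⌈b - w⌉₊ : ℝ) := Nat.le_ceil _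
  have h3 : (⌈b - w⌉₊ : ℝ) - (⌈a + w⌉₊ : ℝ) ≤ ((⌈b - w⌉₊ - ⌈a + w⌉₊ : ℕ) : ℝ) := by
    rw [sub_le_iff_le_add]
    have h4 : ⌈b - w⌉₊ ≤ (⌈b - w⌉₊ - ⌈a + w⌉₊) + ⌈a + w⌉₊ := by omega
    exact_mod_cast h4
  linarith

theorem count_T {m : ℕ} {w D X : ℝ} {e : ℕ} (hm : 1 ≤ m) (hw : 1 ≤ w) (J : Finset ℕ)
    (hJ : ∀ j ∈ J, (j + 1) % 2 = e ∧ Run m w D X j) :
    (J.card : ℝ) * w ≤ ((T m w D X e).ncard : ℝ) := by
  classical
  set S : ℕ → Finset ℕ := fun j => Finset.Ico ⌈(P j : ℝ) + w⌉₊ ⌈(P (j + 1) : ℝ) - w⌉₊ with hS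
  have hmemS : ∀ {j x : ℕ}, x ∈ S j → (P j : ℝ) + w ≤ x ∧ (x : ℝ) < P (j + 1) - w := by
    intro j x hx
    rw [hS, Finset.mem_Ico] at hx
    exact ⟨Nat.ceil_le.1 hx.1, Nat.lt_ceil.1 hx.2⟩
  have hseg : ∀ {j x : ℕ}, x ∈ S j → P j ≤ x ∧ x < P (j + 1) := by
    intro j x hx
    obtain ⟨h1, h2⟩ := hmemS hx
    constructor
    · have : (P j : ℝ) ≤ x := by linarith
      exact_mod_cast this
    · have : (x : ℝ) < P (j + 1) := by linarith
      exact_mod_cast this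
  have hdisj : ∀ a ∈ J, ∀ b ∈ J, a ≠ b → Disjoint (S a) (S b) := by
    intro a _ b _ hab
    rw [Finset.disjoint_left]
    intro x hxa hxb
    have h1 := hseg hxa
    have h2 := hseg hxb
    rcases Nat.lt_or_gt_of_ne hab with h | h
    · have h3 : P (a + 1) ≤ P b := P_mono h
      omega
    · have h3 : P (b + 1) ≤ P a := P_mono h
      omega
  have hsub : ((J.biUnion S : Finset ℕ) : Set ℕ) ⊆ T m w D X e := by
    intro x hx
    rw [Finset.mem_coe, Finset.mem_biUnion] at hx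
    obtain ⟨j, hj, hxj⟩ := hx
    obtain ⟨h1, h2⟩ := hmemS hxj
    have h3 := mem_T hm (by linarith) (hJ j hj).2 h1 h2
    rwa [(hJ j hj).1] at h3
  have h1 := Set.ncard_le_ncard hsub (T_finite m w D X e)
  rw [Set.ncard_coe_finset, Finset.card_biUnion hdisj] at h1
  have h2 : (J.card : ℝ) * w ≤ ((∑ j ∈ J, (S j).card : ℕ) : ℝ) := by
    push_cast
    rw [← nsmul_eq_mul, ← Finset.sum_const]
    refine Finset.sum_le_sum fun j hj => ?_
    exact card_seg (Nat.cast_nonneg _) hw (hJ j hj).2.1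
  exact h2.trans (by exact_mod_cast h1)

end Pool.Agent.H64.LD
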