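import Pool.Agent.H64.LD.Sel
import Pool.Agent.H91.CK.Run
import Pool.Agent.H17.PNT

/-!
MP_deb9f2_nt.  Main theorem: a positive proportion of the points of the ladder lie in the middle of long multiple crossings.
-/

set_option autoImplicit false

namespace Pool.Agent.H64.LD

open Finset Filter Topology

theorem T_mono {m m' : ℕ} (h : m ≤ m') (w D X : ℝ) (e : ℕ) : T m' w D X e ⊆ T m w D X e :=
  fun _ hx => ⟨hx.1, hx.2.1, hx.2.2.1, fun s hs => h.trans (hx.2.2.2 s hs)⟩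

theorem main_pos {m : ℕ} (hm : 1 ≤ m) {lam : ℝ} (hlam : 0 < lam) : ∃ c C X₀ : ℝ, 0 < c ∧ ∀ X : ℝ, X₀ ≤ X →
    ∀ e : ℕ, e = 0 ∨ e = 1 → c * X ≤ ((T m (lam * Real.log X) (C * Real.log X) X e).ncard : ℝ) := by
  obtain ⟨c0, hc0, x0, hgrow⟩ := H91CK.growing (m + 1) (4 * lam) 1 (by positivity)
  have hpnt := Pool.Agent.H17.pi_tendsto
  have hev1 : ∀ᶠ x : ℝ in atTop, (1 / 2 : ℝ) < (Nat.primeCounting ⌊x⌋₊ : ℝ) * Real.log x / x :=
    hpnt.eventually_const_lt (by norm_num)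
  have hlog := Real.tendsto_log_atTop
  have hev2 : ∀ᶠ x : ℝ in atTop, max 1 (1 / lam) ≤ Real.log x := hlog.eventually_ge_atTop _
  have hpi : Tendsto (fun x : ℝ => (Nat.primeCounting ⌊x⌋₊ : ℝ)) atTop atTop :=
    tendsto_natCast_atTop_atTop.comp (Nat.tendsto_primeCounting.comp tendsto_nat_floor_atTop)
  have hev3 : ∀ᶠ x : ℝ in atTop, 4 * ((m + 1 : ℕ) : ℝ) / c0 ≤ (Nat.primeCounting ⌊x⌋₊ : ℝ) :=
    hpi.eventually_ge_atTop _
  obtain ⟨X1, hX1⟩ := Filter.eventually_atTop.1 (hev1.and (hev2.and (hev3.and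
    ((eventually_ge_atTop x0).and (eventually_ge_atTop (1 : ℝ))))))
  set C : ℝ := 8 * ((m + 1 : ℕ) : ℝ) / c0 with hC
  refine ⟨c0 * lam / 8, C, X1, by positivity, fun X hX e he => ?_⟩
  obtain ⟨h1, h2, h3, h4, h5⟩ := hX1 X hX
  have hXpos : 0 < X := by linarith
  set L := Real.log X with hL
  have hL1 : 1 ≤ L := (le_max_left _ _).trans h2
  have hL2 : 1 / lam ≤ L := (le_max_right _ _).trans h2
  have hLpos : 0 < L := by linarith
  have hw : 1 ≤ lam * L := by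
    rw [div_le_iff₀ hlam] at hL2
    linarith
  set N := Nat.primeCounting ⌊X⌋₊ with hN
  have hNX : X / 2 ≤ N * L := by
    rw [lt_div_iff₀ hXpos] at h1
    linarith
  have hCpos : 0 < C := by positivity
  have hg := hgrow X h4
  rw [← hN] at hg
  have hG : c0 * N ≤ (Set.ncard {i : ℕ | i < N ∧ (∀ j < m + 1, 4 * (lam * L) < (P (i + j + 1) : ℝ) - P (i + j)) ∧
      ∀ j, j + 1 < m + 1 → (P (i + j + 1) : ℝ) - P (i + j) < (P (i + j + 1 + 1) : ℝ) - P (i + j + 1)} : ℝ) := by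
    refine hg.trans (le_of_eq ?_)
    congr 2
    ext i
    simp only [Set.mem_ofPred_eq, H91CK.gap, P, one_mul, mul_assoc, hL]
  have h6 : ((m + 1 : ℕ) : ℝ) ≤ c0 / 4 * N := by
    rw [div_le_iff₀ hc0] at h3
    linarith
  have h7 : ((m + 1 : ℕ) : ℝ) * X ≤ c0 / 4 * N * (C * L) := by
    have e1 : c0 / 4 * N * (C * L) = 2 * ((m + 1 : ℕ) : ℝ) * (N * L) := by
      rw [hC]
      field_simp
      ring
    rw [e1]
    have e2 : (0 : ℝ) ≤ ((m + 1 : ℕ) : ℝ) := Nat.cast_nonneg _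
    nlinarith
  obtain ⟨J, hJ1, hJ2⟩ := select hm he hXpos.le (by positivity : 0 < C * L) hN hc0 hG h6 h7
  have h8 := count_T hm hw J hJ2
  have h9 : c0 / 4 * N * (lam * L) ≤ (J.card : ℝ) * (lam * L) :=
    mul_le_mul_of_nonneg_right hJ1 (by linarith)
  have h10 : c0 * lam / 8 * X ≤ c0 / 4 * N * (lam * L) := by
    have e1 : c0 / 4 * N * (lam * L) = c0 * lam / 4 * (N * L) := by ring
    rw [e1]
    have e2 : 0 < c0 * lam / 4 := by positivity
    nlinarith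
  linarith

theorem main (m : ℕ) {lam : ℝ} (hlam : 0 < lam) : ∃ c C X₀ : ℝ, 0 < c ∧ ∀ X : ℝ, X₀ ≤ X →
    ∀ e : ℕ, e = 0 ∨ e = 1 → c * X ≤ ((T m (lam * Real.log X) (C * Real.log X) X e).ncard : ℝ) := by
  obtain ⟨c, C, X₀, hc, h⟩ := main_pos (m := m + 1) (by omega) hlam
  refine ⟨c, C, X₀, hc, fun X hX e he => (h X hX e he).trans ?_⟩
  exact_mod_cast Set.ncard_le_ncard (T_mono (Nat.le_succ m) _ _ _ _) (T_finite _ _ _ _ _)

end Pool.Agent.H64.LD
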