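import Pool.Agent.H64.LD.Cnt

/-!
MP_deb9f2_nt.  From a positive proportion of runs of increasing long gaps to a positive proportion of points.
-/

set_option autoImplicit false

namespace Pool.Agent.H64.LD

open Finset

theorem P_le {k : ℕ} {X : ℝ} (hX : 0 ≤ X) (h : k < Nat.primeCounting ⌊X⌋₊) : (P k : ℝ) ≤ X := by
  have h1 : P k < ⌊X⌋₊ + 1 := Nat.nth_lt_of_lt_count h
  have h2 : P k ≤ ⌊X⌋₊ := by omega
  have h3 : (P k : ℝ) ≤ (⌊X⌋₊ : ℝ) := by exact_mod_cast h2
  exact h3.trans (Nat.floor_le hX)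

theorem tele (n k : ℕ) : ∑ i ∈ Finset.range n, ((P (i + k) : ℝ) - P i) =
    ∑ t ∈ Finset.range k, ((P (n + t) : ℝ) - P t) := by
  have h1 : ∀ i, (P (i + k) : ℝ) - P i = ∑ t ∈ Finset.range k, ((P (i + t + 1) : ℝ) - P (i + t)) := by
    intro i
    have := Finset.sum_range_sub (fun t => (P (i + t) : ℝ)) k
    simp only [add_zero] at this
    rw [← this]
    rfl
  simp_rw [h1]
  rw [Finset.sum_comm]
  refine Finset.sum_congr rfl fun t _ => ?_
  have := Finset.sum_range_sub (fun i => (P (i + t) : ℝ)) n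
  simp only [zero_add] at this
  rw [← this]
  refine Finset.sum_congr rfl fun i _ => ?_
  have h2 : i + 1 + t = i + t + 1 := by ring
  rw [h2]

/-- few indices have a long window -/
theorem few {N k : ℕ} {X D : ℝ} (hX : 0 ≤ X) (hN : N = Nat.primeCounting ⌊X⌋₊) :
    ((((Finset.range N).filter (fun i => i + k < N ∧ D < (P (i + k) : ℝ) - P i)).card : ℝ)) * D ≤ k * X := by
  classical
  set B := (Finset.range N).filter (fun i => i + k < N ∧ D < (P (i + k) : ℝ) - P i) with hB
  have h1 : (B.card : ℝ) * D ≤ ∑ i ∈ B, ((P (i + k) : ℝ) - P i) := by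
    rw [← nsmul_eq_mul, ← Finset.sum_const]
    refine Finset.sum_le_sum fun i hi => ?_
    rw [hB, Finset.mem_filter] at hi
    exact hi.2.2.le
  have h2 : ∑ i ∈ B, ((P (i + k) : ℝ) - P i) ≤ ∑ i ∈ Finset.range (N - k), ((P (i + k) : ℝ) - P i) := by
    refine Finset.sum_le_sum_of_subset_of_nonneg ?_ ?_
    · intro i hi
      rw [hB, Finset.mem_filter] at hi
      rw [Finset.mem_range]
      omega
    · intro i _ _
      have : P i ≤ P (i + k) := P_mono (by omega)
      have : (P i : ℝ) ≤ P (i + k) := by exact_mod_cast this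
      linarith
  rw [tele] at h2
  have h3 : ∑ t ∈ Finset.range k, ((P (N - k + t) : ℝ) - P t) ≤ k * X := by
    have h4 : ∑ t ∈ Finset.range k, ((P (N - k + t) : ℝ) - P t) ≤ ∑ _t ∈ Finset.range k, X := by
      refine Finset.sum_le_sum fun t ht => ?_
      rw [Finset.mem_range] at ht
      by_cases hk : k ≤ N
      · have h5 : (P (N - k + t) : ℝ) ≤ X := P_le hX (by omega)
        have h6 : (0 : ℝ) ≤ P t := Nat.cast_nonneg _
        linarith
      · have h7 : N - k + t = t := by omega
        rw [h7]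
        linarith
    rw [Finset.sum_const, Finset.card_range, nsmul_eq_mul] at h4
    exact h4
  linarith

theorem select {m N e : ℕ} {w D X c : ℝ} (hm : 1 ≤ m) (he : e = 0 ∨ e = 1) (hX : 0 ≤ X) (hD : 0 < D)
    (hN : N = Nat.primeCounting ⌊X⌋₊) (hc : 0 < c)
    (hG : c * N ≤ (Set.ncard {i : ℕ | i < N ∧ (∀ j < m + 1, 4 * w < (P (i + j + 1) : ℝ) - P (i + j)) ∧
      ∀ j, j + 1 < m + 1 → (P (i + j + 1) : ℝ) - P (i + j) < (P (i + j + 1 + 1) : ℝ) - P (i + j + 1)} : ℝ))
    (h1 : ((m + 1 : ℕ) : ℝ) ≤ c / 4 * N) (h2 : ((m + 1 : ℕ) : ℝ) * X ≤ c / 4 * N * D) :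
    ∃ J : Finset ℕ, c / 4 * N ≤ (J.card : ℝ) ∧ ∀ j ∈ J, (j + 1) % 2 = e ∧ Run m w D X j := by
  classical
  set good : ℕ → Prop := fun i => (∀ j < m + 1, 4 * w < (P (i + j + 1) : ℝ) - P (i + j)) ∧
      ∀ j, j + 1 < m + 1 → (P (i + j + 1) : ℝ) - P (i + j) < (P (i + j + 1 + 1) : ℝ) - P (i + j + 1) with hgood
  set G := (Finset.range N).filter good with hGdef
  have hGcard : c * N ≤ (G.card : ℝ) := by
    refine hG.trans (le_of_eq ?_)
    rw [← Set.ncard_coe_finset]
    congr 2
    ext i
    rw [hGdef, Finset.coe_filter]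
    simp only [Set.mem_ofPred_eq, Finset.mem_range, hgood]
  set B1 := (Finset.range N).filter (fun i => N ≤ i + (m + 1)) with hB1
  set B2 := (Finset.range N).filter (fun i => i + (m + 1) < N ∧ D < (P (i + (m + 1)) : ℝ) - P i) with hB2
  have hB1c : B1.card ≤ m + 1 := by
    have : B1 ⊆ Finset.Ico (N - (m + 1)) N := by
      intro i hi
      rw [hB1, Finset.mem_filter, Finset.mem_range] at hi
      rw [Finset.mem_Ico]
      omega
    have h := Finset.card_le_card this
    rw [Nat.card_Ico] at h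
    omega
  have hB2c : (B2.card : ℝ) ≤ c / 4 * N := by
    have h := few (k := m + 1) (D := D) hX hN
    rw [← hB2] at h
    have h3 : (B2.card : ℝ) * D ≤ c / 4 * N * D := h.trans h2
    exact le_of_mul_le_mul_right h3 hD
  set G1 := (G \ B1) \ B2 with hG1
  have hG1c : c / 2 * N ≤ (G1.card : ℝ) := by
    have k1 : G.card ≤ G1.card + B1.card + B2.card := by
      have e1 := Finset.card_le_card_sdiff_add_card (s := G) (t := B1)
      have e2 := Finset.card_le_card_sdiff_add_card (s := G \ B1) (t := B2)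
      rw [← hG1] at e2
      omega
    have k2 : (G.card : ℝ) ≤ G1.card + B1.card + B2.card := by exact_mod_cast k1
    have k3 : (B1.card : ℝ) ≤ ((m + 1 : ℕ) : ℝ) := by exact_mod_cast hB1c
    have k4 : c * (N : ℝ) = c / 4 * N + c / 4 * N + c / 2 * N := by ring
    linarith
  have hmemG1 : ∀ i ∈ G1, i + (m + 1) < N ∧ (P (i + (m + 1)) : ℝ) - P i ≤ D ∧ good i := by
    intro i hi
    rw [hG1, Finset.mem_sdiff, Finset.mem_sdiff] at hi
    obtain ⟨⟨k1, k2⟩, k3⟩ := hi
    rw [hGdef, Finset.mem_filter, Finset.mem_range] at k1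
    rw [hB1, Finset.mem_filter, Finset.mem_range] at k2
    rw [hB2, Finset.mem_filter, Finset.mem_range] at k3
    have k4 : i + (m + 1) < N := by
      by_contra h
      exact k2 ⟨k1.1, by omega⟩
    refine ⟨k4, ?_, k1.2⟩
    by_contra h
    exact k3 ⟨k1.1, k4, by linarith [not_le.1 h]⟩
  set f : ℕ → ℕ := fun i => if (i + 1) % 2 = e then i else i + 1 with hf
  refine ⟨G1.image f, ?_, ?_⟩
  · have h5 : G1.card ≤ 2 * (G1.image f).card := by
      apply Finset.card_le_mul_card_image
      intro a _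
      have : (G1.filter (fun x => f x = a)) ⊆ {a, a - 1} := by
        intro x hx
        rw [Finset.mem_filter] at hx
        have hx2 := hx.2
        simp only [hf] at hx2
        rw [Finset.mem_insert, Finset.mem_singleton]
        split_ifs at hx2 <;> omega
      exact (Finset.card_le_card this).trans Finset.card_le_two
    have h6 : (G1.card : ℝ) ≤ 2 * ((G1.image f).card : ℝ) := by exact_mod_cast h5
    have h7 : c / 2 * (N : ℝ) = 2 * (c / 4 * N) := by ring
    linarith
  · intro j hj
    rw [Finset.mem_image] at hj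
    obtain ⟨i, hi, hij⟩ := hj
    obtain ⟨k1, k2, k3, k4⟩ := hmemG1 i hi
    simp only [hf] at hij
    have q1 : (P i : ℝ) ≤ P (i + 1) := by exact_mod_cast P_mono (by omega : i ≤ i + 1)
    have q2 : (P (i + m) : ℝ) ≤ P (i + (m + 1)) := by exact_mod_cast P_mono (by omega : i + m ≤ i + (m + 1))
    split_ifs at hij with hpar
    · rw [← hij]
      refine ⟨hpar, ?_, ?_, by linarith, ?_⟩
      · exact k3 0 (by omega)
      · intro t ht
        have := k4 t (by omega)
        exact_mod_cast this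
      · exact P_le hX (by omega)
    · rw [← hij]
      have e1 : i + 1 + m = i + (m + 1) := by ring
      refine ⟨by omega, ?_, ?_, by rw [e1]; linarith, ?_⟩
      · exact k3 1 (by omega)
      · intro t ht
        have := k4 (t + 1) (by omega)
        have e2 : i + (t + 1) = i + 1 + t := by ring
        rw [e2] at this
        exact_mod_cast this
      · exact P_le hX (by omega)

end Pool.Agent.H64.LD
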